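import Pool.Agent.Helper17.SL.GoalsZE

/-!
# Project SL, packet ZB: lower bound for the Hilbert function
-/

namespace Pool.Agent.Helper17.SL.PkZB

open MvPolynomial Module

universe u x y

/-- The upper bounds for the exponents: `a` for the `X i`, `b` for the `Y j`, zero outside `s`. -/
noncomputable def bnd {I : Type x} {J : Type y} [Fintype I] [Fintype J] (s : Finset (I ⊕ J))
    (a b : ℕ) : I ⊕ J →₀ ℕ :=
  open Classical in
  Finsupp.equivFunOnFinite.symm (fun i ↦ if i ∈ s then Sum.elim (fun _ ↦ a) (fun _ ↦ b) i else 0)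

theorem bnd_apply {I : Type x} {J : Type y} [Fintype I] [Fintype J] (s : Finset (I ⊕ J))
    (a b : ℕ) [DecidableEq I] [DecidableEq J] (i : I ⊕ J) :
    bnd s a b i = if i ∈ s then Sum.elim (fun _ ↦ a) (fun _ ↦ b) i else 0 := by
  classical
  unfold bnd
  rw [Finsupp.equivFunOnFinite_symm_apply_apply]
  by_cases h : i ∈ s
  · rw [if_pos h, if_pos h]
  · rw [if_neg h, if_neg h]

theorem card_Iic_bnd {I : Type x} {J : Type y} [Fintype I] [Fintype J] [DecidableEq I]
    [DecidableEq J] (s : Finset (I ⊕ J)) (a b : ℕ) :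
    (Finset.Iic (bnd s a b)).card = (a + 1) ^ s.toLeft.card * (b + 1) ^ s.toRight.card := by
  classical
  rw [Finsupp.card_Iic]
  have hsub : (bnd s a b).support ⊆ s := by
    intro i hi
    by_contra h
    rw [Finsupp.mem_support_iff, bnd_apply, if_neg h] at hi
    exact hi rfl
  have h1 : ∏ i ∈ (bnd s a b).support, (Finset.Iic ((bnd s a b) i)).card
      = ∏ i ∈ s, (Finset.Iic ((bnd s a b) i)).card := by
    refine Finset.prod_subset hsub fun i _ hi ↦ ?_
    rw [Finsupp.notMem_support_iff] at hi
    rw [hi, Nat.card_Iic, Nat.zero_add]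
  have h2 : ∏ i ∈ s, (Finset.Iic ((bnd s a b) i)).card
      = ∏ i ∈ s, (Sum.elim (fun _ ↦ a) (fun _ ↦ b) i + 1) := by
    refine Finset.prod_congr rfl fun i hi ↦ ?_
    rw [Nat.card_Iic, bnd_apply, if_pos hi]
  rw [h1, h2, ← Finset.toLeft_disjSum_toRight (u := s), Finset.prod_disjSum,
    Finset.toLeft_disjSum, Finset.toRight_disjSum]
  simp only [Sum.elim_inl, Sum.elim_inr, Finset.prod_const]

/-- The weight is monotone. -/
theorem wt_mono {I J : Type*} [Fintype I] [Fintype J] (T S : ℕ) {d e : I ⊕ J →₀ ℕ} (h : d ≤ e) :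
    wt T S d ≤ wt T S e := by
  unfold wt
  gcongr with i _ j _
  · exact h _
  · exact h _

theorem wt_bnd_le {I : Type x} {J : Type y} [Fintype I] [Fintype J] (s : Finset (I ⊕ J))
    (T S x : ℕ) :
    wt T S (bnd s (x * T / (Fintype.card I + Fintype.card J))
      (x * S / (Fintype.card I + Fintype.card J))) ≤ x * (S * T) := by
  classical
  set d := Fintype.card I + Fintype.card J with hd
  have h1 : wt T S (bnd s (x * T / d) (x * S / d)) ≤
      S * (Fintype.card I * (x * T / d)) + T * (Fintype.card J * (x * S / d)) := by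
    unfold wt
    gcongr
    · calc ∑ i, (bnd s (x * T / d) (x * S / d)) (Sum.inl i) ≤ ∑ _i : I, (x * T / d) := by
            refine Finset.sum_le_sum fun i _ ↦ ?_
            rw [bnd_apply]
            split_ifs
            · exact le_rfl
            · exact Nat.zero_le _
        _ = Fintype.card I * (x * T / d) := by
            rw [Finset.sum_const, Finset.card_univ, smul_eq_mul]
    · calc ∑ j, (bnd s (x * T / d) (x * S / d)) (Sum.inr j) ≤ ∑ _j : J, (x * S / d) := by
            refine Finset.sum_le_sum fun i _ ↦ ?_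
            rw [bnd_apply]
            split_ifs
            · exact le_rfl
            · exact Nat.zero_le _
        _ = Fintype.card J * (x * S / d) := by
            rw [Finset.sum_const, Finset.card_univ, smul_eq_mul]
  refine h1.trans ?_
  rcases Nat.eq_zero_or_pos d with h0 | h0
  · rw [h0, Nat.div_zero, Nat.div_zero]
    simp
  · refine Nat.le_of_mul_le_mul_left ?_ h0
    have h2 : x * T / d * d ≤ x * T := Nat.div_mul_le_self _ _
    have h3 : x * S / d * d ≤ x * S := Nat.div_mul_le_self _ _
    calc d * (S * (Fintype.card I * (x * T / d)) + T * (Fintype.card J * (x * S / d)))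
        = S * Fintype.card I * (x * T / d * d) + T * Fintype.card J * (x * S / d * d) := by ring
      _ ≤ S * Fintype.card I * (x * T) + T * Fintype.card J * (x * S) := by gcongr
      _ = d * (x * (S * T)) := by rw [hd]; ring

/-- `F_x` is finite dimensional. -/
theorem fil_finite (K : Type u) [Field K] (I : Type x) (J : Type y) [Fintype I] [Fintype J]
    (T S x : ℕ) (hT : 1 ≤ T) (hS : 1 ≤ S) : Module.Finite K (Fil K I J T S x) := by
  classical
  have hfin : {d : I ⊕ J →₀ ℕ | wt T S d ≤ x * (S * T)}.Finite := by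
    refine (Set.finite_Iic (bnd (Finset.univ : Finset (I ⊕ J)) (x * (S * T))
      (x * (S * T)))).subset ?_
    intro d hd
    change wt T S d ≤ x * (S * T) at hd
    rw [Set.mem_Iic]
    intro i
    rw [bnd_apply, if_pos (Finset.mem_univ _)]
    unfold wt at hd
    rcases i with i | j
    · rw [Sum.elim_inl]
      have h1 : d (Sum.inl i) ≤ ∑ i, d (Sum.inl i) :=
        Finset.single_le_sum (f := fun i ↦ d (Sum.inl i)) (fun _ _ ↦ Nat.zero_le _)
          (Finset.mem_univ i)
      have h2 : ∑ i, d (Sum.inl i) ≤ S * ∑ i, d (Sum.inl i) := Nat.le_mul_of_pos_left _ hS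
      omega
    · rw [Sum.elim_inr]
      have h1 : d (Sum.inr j) ≤ ∑ j, d (Sum.inr j) :=
        Finset.single_le_sum (f := fun j ↦ d (Sum.inr j)) (fun _ _ ↦ Nat.zero_le _)
          (Finset.mem_univ j)
      have h2 : ∑ j, d (Sum.inr j) ≤ T * ∑ j, d (Sum.inr j) := Nat.le_mul_of_pos_left _ hT
      omega
  have : Finite {d : I ⊕ J →₀ ℕ | wt T S d ≤ x * (S * T)} := hfin.to_subtype
  exact Module.Finite.of_basis (basisRestrictSupport K {d : I ⊕ J →₀ ℕ | wt T S d ≤ x * (S * T)})

theorem hil_ge (K : Type u) [Field K] (I : Type x) (J : Type y) [Fintype I] [Fintype J]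
    (A : Ideal (MvPolynomial (I ⊕ J) K)) (s : Finset (I ⊕ J)) (T S x : ℕ) (hT : 1 ≤ T)
    (hS : 1 ≤ S) (hA : Indep A s) :
    (x * T / (Fintype.card I + Fintype.card J) + 1) ^ s.toLeft.card *
      (x * S / (Fintype.card I + Fintype.card J) + 1) ^ s.toRight.card ≤ hil A T S x := by
  classical
  set d := Fintype.card I + Fintype.card J with hd
  set b := bnd s (x * T / d) (x * S / d) with hb
  set W : Submodule K (MvPolynomial (I ⊕ J) K) := restrictSupport K (Set.Iic b) with hW
  have hWF : W ≤ Fil K I J T S x := by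
    refine restrictSupport_mono K fun e he ↦ ?_
    rw [Set.mem_Iic] at he
    exact (wt_mono T S he).trans (wt_bnd_le s T S x)
  have hWs : ∀ f ∈ W, f ∈ supported K (s : Set (I ⊕ J)) := by
    intro f hf
    rw [mem_supported]
    intro i hi
    rw [Finset.mem_coe, mem_vars_iff_mem_support] at hi
    obtain ⟨e, he, hie⟩ := hi
    have h1 : e ≤ b := by
      rw [hW, mem_restrictSupport_iff] at hf
      exact hf he
    by_contra hn
    rw [Finset.mem_coe] at hn
    have h2 := h1 i
    rw [hb, bnd_apply, if_neg hn] at h2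
    rw [Finsupp.mem_support_iff] at hie
    omega
  set φ : MvPolynomial (I ⊕ J) K →ₗ[K] (MvPolynomial (I ⊕ J) K ⧸ A) :=
    (Ideal.Quotient.mkₐ K A).toLinearMap with hφ
  have hinj : Function.Injective (φ.domRestrict W) := by
    rw [← LinearMap.ker_eq_bot, LinearMap.ker_eq_bot']
    rintro ⟨f, hf⟩ h0
    rw [LinearMap.domRestrict_apply] at h0
    have h1 : f ∈ A := by
      rw [hφ, AlgHom.toLinearMap_apply, Ideal.Quotient.mkₐ_eq_mk] at h0
      exact Ideal.Quotient.eq_zero_iff_mem.mp h0
    have h2 := hA f (hWs f hf) h1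
    exact Subtype.ext h2
  have h3 : finrank K (W.map φ) = finrank K W := by
    rw [← LinearMap.range_domRestrict]
    exact LinearMap.finrank_range_of_inj hinj
  have h4 : finrank K W = (Finset.Iic b).card := by
    rw [finrank_eq_nat_card_basis (basisRestrictSupport K (Set.Iic b)), ← Finset.coe_Iic,
      Nat.card_eq_card_toFinset]
    simp
  have : Module.Finite K (Fil K I J T S x) := fil_finite K I J T S x hT hS
  have : Module.Finite K ((Fil K I J T S x).map φ) := Module.Finite.map _ _
  have h5 : finrank K (W.map φ) ≤ finrank K ((Fil K I J T S x).map φ) :=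
    Submodule.finrank_mono (Submodule.map_mono hWF)
  rw [h3, h4, hb, card_Iic_bnd] at h5
  exact h5

theorem thm : S_ZB.{u, x, y} := by
  intro K _ I J _ _ A s T S x hT hS hA
  classical
  have h1 := hil_ge K I J A s T S x hT hS hA
  set d := Fintype.card I + Fintype.card J with hd
  refine le_trans ?_ (Nat.mul_le_mul_left _ h1)
  rcases Nat.eq_zero_or_pos d with h0 | h0
  · have hs : s = ∅ := by
      have h2 : Fintype.card (I ⊕ J) = 0 := by rw [Fintype.card_sum]; exact h0
      have h3 : IsEmpty (I ⊕ J) := Fintype.card_eq_zero_iff.mp h2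
      exact Finset.eq_empty_of_isEmpty s
    subst hs
    have h4 : (∅ : Finset (I ⊕ J)).toLeft.card = 0 :=
      Nat.eq_zero_of_le_zero (Finset.card_toLeft_le (u := (∅ : Finset (I ⊕ J))))
    have h5 : (∅ : Finset (I ⊕ J)).toRight.card = 0 :=
      Nat.eq_zero_of_le_zero (Finset.card_toRight_le (u := (∅ : Finset (I ⊕ J))))
    rw [h4, h5, Finset.card_empty]
    simp
  · rw [← Finset.card_toLeft_add_card_toRight (u := s), pow_add, pow_add]
    have h2 : x * T ≤ d * (x * T / d + 1) := (Nat.lt_mul_div_succ _ h0).le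
    have h3 : x * S ≤ d * (x * S / d + 1) := (Nat.lt_mul_div_succ _ h0).le
    calc x ^ s.toLeft.card * x ^ s.toRight.card * (T ^ s.toLeft.card * S ^ s.toRight.card)
        = (x * T) ^ s.toLeft.card * (x * S) ^ s.toRight.card := by
          rw [mul_pow, mul_pow]; ring
      _ ≤ (d * (x * T / d + 1)) ^ s.toLeft.card * (d * (x * S / d + 1)) ^ s.toRight.card := by
          gcongr
      _ = d ^ s.toLeft.card * d ^ s.toRight.card * ((x * T / d + 1) ^ s.toLeft.card *
            (x * S / d + 1) ^ s.toRight.card) := by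
          rw [mul_pow, mul_pow]; ring

end Pool.Agent.Helper17.SL.PkZB
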